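import Pool.Agent.R297.VC.Main
import Pool.Agent.R297.VC.Meas
import Pool.Agent.R515.VCTensor

/-!
# An expanding set which is not a van der Corput set

There are a countable abelian group `G` (of exponent 3), a `(D,B)`-expanding set `S ⊆ G` and a
Borel probability measure `σ` on the dual group with `σ^(s) = 0` for all `s ∈ S`, but
`σ({1}) > 0`. This is the negated form of the question.

Construction. `G = ⨁_n F_3^{N_n}`, `psi_n(v) = 1 - (3/2)|supp v| / N_n`,
`S = {g : prod_n psi_n(g_n) = -1/4}`, and `σ = (1/5) δ_1 + (4/5) ν`, where `ν` is the law of a
product of random coordinate characters, so that `ν^(g) = prod_n psi_n(g_n)`.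
The set is expanding by a two-set exact distance theorem in `F_3^N` (reverse hypercontractivity
from a one-point inequality, and comparison of the exact sphere with the product noise by finite
Fourier analysis), a product lemma, and an averaging over a finite family of translations.
-/

set_option autoImplicit false

open MeasureTheory

namespace Pool.Agent.Results.MP_f7f1a6_co.NotVanDerCorput

/-- There are a discrete abelian group `G`, a `(D,B)`-expanding set `S` and a Borel probability
measure `σ` on the dual group whose Fourier transform vanishes on `S` and with `σ({1}) > 0`. -/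
theorem result :
    ∃ (G : Type) (_ : AddCommGroup G) (S : Set G), Countable G ∧ (∀ g : G, 3 • g = 0) ∧
      VdCExp.Expanding S ∧
      ∃ σ : Measure (VdCExp.Dual G), IsProbabilityMeasure σ ∧
        (∀ s ∈ S, ∫ χ, (χ.1 s : ℂ) ∂σ = 0) ∧ 0 < σ {VdCExp.triv G} :=
  VdCExp.main_of VdCExp.stmtTensor VdCExp.stmtMeasure

end Pool.Agent.Results.MP_f7f1a6_co.NotVanDerCorput
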